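import Pool.Agent.Y160.SL.TowF
import Pool.Agent.Y160.T3.Pt
import Pool.Agent.Y160.T2.Ext

/-!
# A positive proportion of the data over finite fields
-/

set_option autoImplicit false
set_option linter.all false

open Polynomial

namespace Pool.Agent.Y160.T5

open Pool.Agent.Y160.SL (coefG coefB coefC towF GoodTow ShaBasis)
open Pool.Agent.Y160.T3
open Pool.Agent.Y160.T2 (pow_of_norm)

section ext

variable {k k' : Type} [Field k] [Field k'] [Algebra k k'] [FiniteDimensional k k']

/-- Irreducible polynomials over an extension of degree prime to their degree. -/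
theorem irr_ext {g : k[X]} (hg : g.Monic) (hirr : Irreducible g)
    (h : g.natDegree.Coprime (Module.finrank k k')) : Irreducible (g.map (algebraMap k k')) := by
  have hd : 0 < g.natDegree := hirr.natDegree_pos
  have hg' : (g.map (algebraMap k k')).Monic := hg.map _
  have hu : ¬ IsUnit (g.map (algebraMap k k')) := by
    intro h0
    have h1 := natDegree_eq_zero_of_isUnit h0
    rw [natDegree_map] at h1
    omega
  obtain ⟨f, hf1, hf2, hf3⟩ := exists_monic_irreducible_factor _ hu
  haveI : Fact (Irreducible f) := ⟨hf2⟩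
  haveI : FiniteDimensional k' (AdjoinRoot f) := hf1.finite_adjoinRoot
  have hmin : minpoly k (AdjoinRoot.root f) = g := by
    refine (minpoly.eq_of_irreducible_of_monic hirr ?_ hg).symm
    have h1 : aeval (AdjoinRoot.root f) (g.map (algebraMap k k')) = 0 := by
      obtain ⟨w, hw⟩ := hf3
      rw [hw, map_mul]
      have : aeval (AdjoinRoot.root f) f = 0 := by
        rw [AdjoinRoot.aeval_eq, AdjoinRoot.mk_self]
      rw [this, zero_mul]
    rwa [aeval_map_algebraMap] at h1
  haveI : FiniteDimensional k (AdjoinRoot f) := FiniteDimensional.trans k k' (AdjoinRoot f)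
  have hint : IsIntegral k (AdjoinRoot.root f) := IsIntegral.of_finite k _
  have h1 : g.natDegree ∣ Module.finrank k (AdjoinRoot f) := by
    rw [← hmin, ← IntermediateField.adjoin.finrank hint]
    exact Dvd.intro _ (Module.finrank_mul_finrank k _ _)
  have h2 : Module.finrank k' (AdjoinRoot f) = f.natDegree := by
    rw [(AdjoinRoot.powerBasis hf2.ne_zero).finrank, AdjoinRoot.powerBasis_dim]
  rw [← Module.finrank_mul_finrank k k' (AdjoinRoot f), h2] at h1
  have h3 := Nat.le_of_dvd hf2.natDegree_pos (h.dvd_of_dvd_mul_left h1)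
  have h4 : f = g.map (algebraMap k k') := by
    refine (eq_of_monic_of_dvd_of_natDegree_le hf1 hg' hf3 ?_).symm
    rwa [natDegree_map]
  rwa [← h4]

/-- Good polynomials over an extension. -/
theorem good_ext {g : k[X]} (hg : g.Monic) {R : ℕ} (h : GoodP R g)
    (hr : (R * g.natDegree).Coprime (Module.finrank k k')) : GoodP R (g.map (algebraMap k k')) := by
  refine ⟨irr_ext hg h.1 (Nat.Coprime.coprime_mul_left hr), ?_⟩
  intro N hN hNR y hy
  rw [coeff_map] at hy
  have hc : (Nat.Coprime N (Module.finrank k k')) :=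
    (Nat.Coprime.coprime_mul_right hr).coprime_dvd_left hNR
  by_cases h0 : g.coeff 0 = 0
  · exact h.2 N hN hNR 0 (by rw [h0, zero_pow hN.ne_zero])
  · obtain ⟨c, hc'⟩ := pow_of_norm hN.ne_zero hc h0 hy
    exact h.2 N hN hNR c hc'

end ext

theorem good_tow {p q s m r R : ℕ} (hp : p.Prime) (hq : q = p ^ (s + 1)) (hcop : p.Coprime m)
    (hqr : q * r < m) (hR : Odd R) (hpR : p.Coprime R) {F : Type} [Field F] [Finite F] {ζ : F}
    (hζ : IsPrimitiveRoot ζ q) {v : Fin (m + (r + 2)) → F} (hc : coefC m r v ≠ 0)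
    (hb : coefB m r v ≠ 0) (hg : GoodP R (coefG m r v))
    (hg2 : GoodP R (coefG m r v + coefB m r v ^ q)) :
    GoodTow p q R F (coefG m r v) (coefB m r v) (coefC m r v) := by
  have hM : ∀ M e : ℕ, M ∣ R ^ e → Odd M ∧ 0 < M ∧ p.Coprime M ∧ ∀ N : ℕ, N.Prime → N ∣ M → N ∣ R := by
    intro M e hMe
    have h1 : Odd M := hR.pow.of_dvd_nat hMe
    exact ⟨h1, h1.pos, (hpR.pow_right e).coprime_dvd_right hMe,
      fun N hN hNM => hN.dvd_of_dvd_pow (hNM.trans hMe)⟩
  have hirr : ∀ M e : ℕ, M ∣ R ^ e → Irreducible (expand F M (coefG m r v)) ∧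
      Irreducible (expand F M (coefG m r v + coefB m r v ^ q)) := by
    intro M e hMe
    obtain ⟨h1, -, -, h2⟩ := hM M e hMe
    exact ⟨irr_expand (coefG_monic _) hg.1 h1 fun N hN hNM => hg.2 N hN (h2 N hN hNM),
      irr_expand (sum_monic _ hqr) hg2.1 h1 fun N hN hNM => hg2.2 N hN (h2 N hN hNM)⟩
  refine ⟨hc, hirr, ?_⟩
  intro d M e hd hMe K _ _ _
  obtain ⟨-, hM0, hpM, -⟩ := hM M e hMe
  obtain ⟨i1, i2⟩ := hirr M e hMe
  have e1 : (expand F M (coefG m r v)).natDegree = m * M := by
    rw [natDegree_expand, coefG_natDegree]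
  refine shaT hp hq hζ ((coefG_monic v).expand hM0) i1 ?_ ?_ ?_ ?_ hc hd K
  · rwa [map_add, map_pow] at i2
  · rw [e1]; exact hcop.mul_right hpM
  · rwa [Ne, expand_eq_zero hM0]
  · rw [e1, natDegree_expand]
    have h3 := coefB_natDegree (m := m) (r := r) v
    calc q * ((coefB m r v).natDegree * M)
        ≤ q * (r * M) := Nat.mul_le_mul le_rfl (Nat.mul_le_mul h3 le_rfl)
      _ = q * r * M := by ring
      _ < m * M := Nat.mul_lt_mul_of_pos_right hqr hM0

/-- The proportion. -/
theorem fin_tow {p s m r R : ℕ} (hp : p.Prime) (hcop : p.Coprime m) (hqr : p ^ (s + 1) * r < m)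
    (hR : Odd R) (hpR : p.Coprime R) (F : Type) [Field F] [Finite F] {ζ : F}
    (hζ : IsPrimitiveRoot ζ (p ^ (s + 1))) (hRF : R ∣ Nat.card F - 1)
    (hn : 4 * (R * m) + 2 ≤ Nat.card F) :
    Nat.card F ^ (m + (r + 2)) ≤ 16 * (R * m) ^ 2 *
      {v : Fin (m + (r + 2)) → F | ∀ (F' : Type) [Field F'] [Algebra F F'] [FiniteDimensional F F'],
        (R * m).Coprime (Module.finrank F F') →
          GoodTow p (p ^ (s + 1)) R F' ((coefG m r v).map (algebraMap F F'))
            ((coefB m r v).map (algebraMap F F')) (algebraMap F F' (coefC m r v))}.ncard := by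
  classical
  haveI : Fintype F := Fintype.ofFinite F
  rw [Nat.card_eq_fintype_card] at hRF hn ⊢
  set A : Set (Fin (m + (r + 2)) → F) := {v : Fin (m + (r + 2)) → F | ∀ (F' : Type) [Field F']
    [Algebra F F'] [FiniteDimensional F F'], (R * m).Coprime (Module.finrank F F') →
      GoodTow p (p ^ (s + 1)) R F' ((coefG m r v).map (algebraMap F F'))
        ((coefB m r v).map (algebraMap F F')) (algebraMap F F' (coefC m r v))} with hA
  have hfin : A.Finite := Set.toFinite _
  rw [Set.ncard_eq_toFinset_card A hfin]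
  have hcop' : (p ^ (s + 1)).Coprime (R * m) := (hpR.mul_right hcop).pow_left _
  refine vec_count hR hqr (Nat.pow_pos hp.pos) hcop' F hRF hn _ fun v hc hb hg hg2 => ?_
  rw [Set.Finite.mem_toFinset, hA]
  intro F' _ _ _ hr
  haveI : Finite F' := Module.finite_of_finite F
  have hinj : Function.Injective (algebraMap F F') := (algebraMap F F').injective
  rw [coefG_map, coefB_map]
  have hc' : coefC m r (fun i => algebraMap F F' (v i)) ≠ 0 := (_root_.map_ne_zero _).2 hc
  refine good_tow hp rfl hcop hqr hR hpR (hζ.map_of_injective hinj) hc' ?_ ?_ ?_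
  · rw [← coefB_map]
    exact (Polynomial.map_ne_zero_iff hinj).2 hb
  · rw [← coefG_map]
    exact good_ext (coefG_monic v) hg (by rwa [coefG_natDegree])
  · rw [← coefG_map, ← coefB_map, ← Polynomial.map_pow, ← Polynomial.map_add]
    refine good_ext (sum_monic v hqr) hg2 ?_
    have h1 : (coefG m r v + coefB m r v ^ p ^ (s + 1)).natDegree = m := by
      rw [natDegree_add_eq_left_of_natDegree_lt, coefG_natDegree]
      rw [coefG_natDegree]
      exact (natDegree_pow_le.trans (Nat.mul_le_mul le_rfl (coefB_natDegree v))).trans_lt hqr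
    rwa [h1]

end Pool.Agent.Y160.T5
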